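import Mathlib

namespace Pool.Agent.V11250.LieExp

open Filter Topology Set

variable {E F : Type*} [NormedAddCommGroup E] [NormedSpace ℝ E] [FiniteDimensional ℝ E]
  [NormedAddCommGroup F] [NormedSpace ℝ F] [FiniteDimensional ℝ F]

/-- a continuously differentiable injective map on a nonempty open set has an injective
derivative somewhere -/
theorem exists_injective_fderiv {g : E → F} {O : Set E} (hO : IsOpen O) (hne : O.Nonempty)
    (hg : ContDiffOn ℝ 1 g O) (hinj : InjOn g O) :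
    ∃ p ∈ O, Function.Injective (fderiv ℝ g p) := by
  classical
  -- a point of maximal rank
  let r : E → ℕ := fun q => Module.finrank ℝ (LinearMap.range (fderiv ℝ g q : E →ₗ[ℝ] F))
  have hr : ∀ q, r q ≤ Module.finrank ℝ F := fun q => Submodule.finrank_le _
  obtain ⟨p, hpO, hmax⟩ : ∃ p ∈ O, ∀ q ∈ O, r q ≤ r p := by
    have hfin : (r '' O).Finite := (Set.finite_Iic (Module.finrank ℝ F)).subset (by
      rintro _ ⟨q, _, rfl⟩; exact hr q)
    obtain ⟨m, ⟨p, hp, rfl⟩, hm⟩ := hfin.exists_maximal (hne.image r)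
    refine ⟨p, hp, fun q hq => ?_⟩
    by_contra hlt
    push Not at hlt
    exact absurd (hm ⟨q, hq, rfl⟩ hlt.le) (not_le.2 hlt)
  refine ⟨p, hpO, ?_⟩
  by_contra hni
  have hgp : ContDiffAt ℝ 1 g p := hg.contDiffAt (hO.mem_nhds hpO)
  set D : E →L[ℝ] F := fderiv ℝ g p with hD
  have hDg : HasFDerivAt g D p := (hgp.differentiableAt (by norm_num)).hasFDerivAt
  -- kernel vector
  obtain ⟨w, hw0, hwD⟩ : ∃ w, w ≠ 0 ∧ D w = 0 := by
    by_contra hcon
    push Not at hcon
    apply hni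
    intro a b hab
    by_contra hne'
    exact hcon (a - b) (sub_ne_zero.2 hne') (by rw [map_sub, hab, sub_self])
  let R : Submodule ℝ F := LinearMap.range (D : E →ₗ[ℝ] F)
  let K : Submodule ℝ E := LinearMap.ker (D : E →ₗ[ℝ] F)
  obtain ⟨πl, hπl⟩ := R.subtype.exists_leftInverse_of_injective (by
    rw [LinearMap.ker_eq_bot]; exact R.injective_subtype)
  obtain ⟨Pl, hPl⟩ := K.subtype.exists_leftInverse_of_injective (by
    rw [LinearMap.ker_eq_bot]; exact K.injective_subtype)
  let π : F →L[ℝ] R := πl.toContinuousLinearMap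
  let P : E →L[ℝ] K := Pl.toContinuousLinearMap
  have hπ : ∀ y : R, π (y : F) = y := fun y => by
    exact LinearMap.congr_fun hπl y
  have hP : ∀ y : K, P (y : E) = y := fun y => by
    exact LinearMap.congr_fun hPl y
  have hπD : ∀ v, π (D v) = 0 → D v = 0 := by
    intro v hv
    have h1 := hπ ⟨D v, ⟨v, rfl⟩⟩
    simp only at h1
    rw [hv] at h1
    exact (congrArg Subtype.val h1).symm
  let Ψ : E → R × K := fun q => (π (g q), P q)
  let L : E →L[ℝ] R × K := (π.comp D).prod P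
  have hLinj : Function.Injective L := by
    intro a b hab
    have h0 : L (a - b) = 0 := by rw [map_sub, hab, sub_self]
    have h1 : π (D (a - b)) = 0 := congrArg Prod.fst h0
    have h2 : P (a - b) = 0 := congrArg Prod.snd h0
    have h3 : (a - b) ∈ K := hπD _ h1
    have h4 := hP ⟨a - b, h3⟩
    simp only at h4
    rw [h2] at h4
    exact sub_eq_zero.1 (congrArg Subtype.val h4).symm
  have hdim : Module.finrank ℝ E = Module.finrank ℝ (R × K) := by
    rw [Module.finrank_prod]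
    exact (LinearMap.finrank_range_add_finrank_ker (D : E →ₗ[ℝ] F)).symm
  let Le : E ≃L[ℝ] R × K :=
    (LinearEquiv.ofInjectiveOfFinrankEq (L : E →ₗ[ℝ] R × K) hLinj hdim).toContinuousLinearEquiv
  have hLe : (Le : E →L[ℝ] R × K) = L := by
    ext v
    · rfl
    · rfl
  have hΨC : ContDiffAt ℝ 1 Ψ p := by
    have h1 : ContDiffAt ℝ 1 (fun q => π (g q)) p := π.contDiff.contDiffAt.comp p hgp
    have h2 : ContDiffAt ℝ 1 (fun q => P q) p := P.contDiff.contDiffAt
    exact h1.prodMk h2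
  have hΨD : HasFDerivAt Ψ (Le : E →L[ℝ] R × K) p := by
    rw [hLe]
    exact (π.hasFDerivAt.comp p hDg).prodMk P.hasFDerivAt
  have h10 : (1 : WithTop ℕ∞) ≠ 0 := by norm_num
  let inv := hΨC.localInverse hΨD h10
  have hinvC : ContDiffAt ℝ 1 inv (Ψ p) := hΨC.to_localInverse hΨD h10
  have hinvp : inv (Ψ p) = p := hΨC.localInverse_apply_image hΨD h10
  have hright : ∀ᶠ y in 𝓝 (Ψ p), Ψ (inv y) = y :=
    (hΨC.hasStrictFDerivAt' hΨD h10).eventually_right_inverse
  let wK : K := ⟨w, hwD⟩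
  let l : ℝ → R × K := fun t => Ψ p + t • ((0 : R), wK)
  have hl : ContDiff ℝ 1 l := contDiff_const.add (contDiff_id.smul contDiff_const)
  have hl0 : l 0 = Ψ p := by simp [l]
  let c : ℝ → E := fun t => inv (l t)
  have hc0 : c 0 = p := by simp only [c, hl0, hinvp]
  have hcC : ∀ᶠ t in 𝓝 (0 : ℝ), ContDiffAt ℝ 1 c t := by
    have h1 : ContDiffAt ℝ 1 c 0 := by
      refine ContDiffAt.comp (0 : ℝ) ?_ hl.contDiffAt
      rw [hl0]; exact hinvC
    exact h1.eventually (by simp)
  have hlt : Tendsto l (𝓝 0) (𝓝 (Ψ p)) := by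
    have := hl.continuous.tendsto 0
    rwa [hl0] at this
  have hcr : ∀ᶠ t in 𝓝 (0 : ℝ), Ψ (c t) = l t := hlt.eventually hright
  have hct : Tendsto c (𝓝 0) (𝓝 p) := by
    have h1 : ContinuousAt c 0 := hcC.self_of_nhds.continuousAt
    have := h1.tendsto
    rwa [hc0] at this
  have hcO : ∀ᶠ t in 𝓝 (0 : ℝ), c t ∈ O := hct.eventually (hO.mem_nhds hpO)
  -- kernels near p
  have hker : ∀ᶠ q in 𝓝 p, ∀ v, π (fderiv ℝ g q v) = 0 → fderiv ℝ g q v = 0 := by
    have hcont : ContinuousAt (fun q => π.comp (fderiv ℝ g q)) p := by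
      have h1 : ContinuousAt (fun q => fderiv ℝ g q) p := by
        have := hgp.fderiv_right (m := 0) (by norm_num)
        exact this.continuousAt
      exact (((ContinuousLinearMap.compL ℝ E F R) π).continuous.continuousAt).comp h1
    have hopen : IsOpen {f : E →L[ℝ] R | ((Module.finrank ℝ R : ℕ) : Cardinal) ≤ (f : E →ₗ[ℝ] R).rank} :=
      isOpen_setOfPred_nat_le_rank _
    have hmem : π.comp D ∈ {f : E →L[ℝ] R | ((Module.finrank ℝ R : ℕ) : Cardinal) ≤ (f : E →ₗ[ℝ] R).rank} := by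
      show ((Module.finrank ℝ R : ℕ) : Cardinal) ≤ ((π.comp D : E →L[ℝ] R) : E →ₗ[ℝ] R).rank
      have htop : LinearMap.range ((π.comp D : E →L[ℝ] R) : E →ₗ[ℝ] R) = ⊤ := by
        rw [LinearMap.range_eq_top]
        rintro ⟨y, ⟨v, rfl⟩⟩
        exact ⟨v, hπ ⟨D v, ⟨v, rfl⟩⟩⟩
      rw [LinearMap.rank, htop, rank_top, Module.finrank_eq_rank]
    have hev := hcont.eventually (hopen.mem_nhds hmem)
    filter_upwards [hev, hO.mem_nhds hpO] with q hq hqO v hv
    have hrq : r q ≤ r p := hmax q hqO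
    set G : E →ₗ[ℝ] F := (fderiv ℝ g q : E →ₗ[ℝ] F) with hG
    set H : E →ₗ[ℝ] R := ((π.comp (fderiv ℝ g q) : E →L[ℝ] R) : E →ₗ[ℝ] R) with hH
    have hle : LinearMap.ker G ≤ LinearMap.ker H := by
      intro u hu
      have hu' : fderiv ℝ g q u = 0 := hu
      show π (fderiv ℝ g q u) = 0
      rw [hu', map_zero]
    have e1 := LinearMap.finrank_range_add_finrank_ker G
    have e2 := LinearMap.finrank_range_add_finrank_ker H
    have hHr : Module.finrank ℝ R ≤ Module.finrank ℝ (LinearMap.range H) := by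
      have h1 : ((Module.finrank ℝ R : ℕ) : Cardinal) ≤ H.rank := hq
      rw [LinearMap.rank, ← Module.finrank_eq_rank] at h1
      exact_mod_cast h1
    have hGr : Module.finrank ℝ (LinearMap.range G) ≤ Module.finrank ℝ R := hrq
    have heq : LinearMap.ker G = LinearMap.ker H :=
      Submodule.eq_of_le_of_finrank_le hle (by omega)
    have hvH : v ∈ LinearMap.ker H := hv
    rw [← heq] at hvH
    exact hvH
  have hkerc : ∀ᶠ t in 𝓝 (0 : ℝ), ∀ v, π (fderiv ℝ g (c t) v) = 0 → fderiv ℝ g (c t) v = 0 :=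
    hct.eventually hker
  obtain ⟨ε, hε, hall⟩ := Metric.eventually_nhds_iff.1 (((hcC.and hcr).and hcO).and hkerc)
  have hin : ∀ t ∈ Metric.ball (0 : ℝ) ε, ((ContDiffAt ℝ 1 c t ∧ Ψ (c t) = l t) ∧ c t ∈ O) ∧
      ∀ v, π (fderiv ℝ g (c t) v) = 0 → fderiv ℝ g (c t) v = 0 := fun t ht => hall ht
  have hderiv : ∀ t ∈ Metric.ball (0 : ℝ) ε, HasDerivAt (fun s => g (c s)) 0 t := by
    intro t ht
    obtain ⟨⟨⟨h1, h2⟩, h3⟩, h4⟩ := hin t ht
    have hcd : HasDerivAt c (deriv c t) t := (h1.differentiableAt (by norm_num)).hasDerivAt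
    have hgd : HasFDerivAt g (fderiv ℝ g (c t)) (c t) :=
      ((hg.contDiffAt (hO.mem_nhds h3)).differentiableAt (by norm_num)).hasFDerivAt
    have hcomp : HasDerivAt (fun s => g (c s)) (fderiv ℝ g (c t) (deriv c t)) t :=
      hgd.comp_hasDerivAt t hcd
    have hπcomp : HasDerivAt (fun s => π (g (c s))) (π (fderiv ℝ g (c t) (deriv c t))) t :=
      π.hasFDerivAt.comp_hasDerivAt t hcomp
    have hconst : (fun s => π (g (c s))) =ᶠ[𝓝 t] fun _ => π (g p) := by
      filter_upwards [Metric.isOpen_ball.mem_nhds ht] with s hs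
      have := congrArg Prod.fst (hin s hs).1.1.2
      simpa [Ψ, l] using this
    have hz : π (fderiv ℝ g (c t) (deriv c t)) = 0 := by
      have h5 : HasDerivAt (fun s => π (g (c s))) 0 t :=
        (hasDerivAt_const t (π (g p))).congr_of_eventuallyEq hconst
      exact hπcomp.unique h5
    rw [h4 _ hz] at hcomp
    exact hcomp
  have hεh : ε / 2 ∈ Metric.ball (0 : ℝ) ε := by
    rw [Metric.mem_ball, dist_zero_right, Real.norm_of_nonneg (by linarith)]; linarith
  have h0h : (0 : ℝ) ∈ Metric.ball (0 : ℝ) ε := Metric.mem_ball_self hε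
  have hgeq : g (c (ε / 2)) = g (c 0) := by
    refine (convex_ball (0 : ℝ) ε).is_const_of_fderivWithin_eq_zero (𝕜 := ℝ)
      (f := fun s => g (c s)) ?_ ?_ hεh h0h
    · intro t ht
      exact (hderiv t ht).differentiableAt.differentiableWithinAt
    · intro t ht
      rw [fderivWithin_of_isOpen Metric.isOpen_ball ht]
      have := (hderiv t ht).hasFDerivAt.fderiv
      rw [this]
      ext
      simp
  have hceq : c (ε / 2) = c 0 := hinj (hin _ hεh).1.2 (hin _ h0h).1.2 hgeq
  have h6 := congrArg Prod.snd (hin _ hεh).1.1.2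
  have h7 : P (c (ε / 2)) = P p + (ε / 2) • wK := h6
  rw [hceq, hc0] at h7
  have h8 : (ε / 2) • wK = 0 := by
    have : P p + (ε / 2) • wK = P p + 0 := by rw [add_zero]; exact h7.symm
    exact add_left_cancel this
  have h9 : wK ≠ 0 := fun h => hw0 (congrArg Subtype.val h)
  rcases smul_eq_zero.1 h8 with h | h
  · linarith
  · exact h9 h

end Pool.Agent.V11250.LieExp
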