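import Pool.Agent.V11250.LieExp.Def
import Pool.Agent.V11250.LieExp.MaxRank

namespace Pool.Agent.V11250.LieExp

open Filter Topology Set
open scoped ContDiff

abbrev V2 := Fin 2 → Fin 2 → ℝ

/-- entries of `a⁻¹ b` -/
def B2 (a b : V2) : V2 :=
  ![![a 1 1 * b 0 0 - a 0 1 * b 1 0, a 1 1 * b 0 1 - a 0 1 * b 1 1],
    ![-(a 1 0) * b 0 0 + a 0 0 * b 1 0, -(a 1 0) * b 0 1 + a 0 0 * b 1 1]]

def det2 (a : V2) : ℝ := a 0 0 * a 1 1 - a 0 1 * a 1 0

theorem entries_inv_mul (a b : SL 2) : entries (a⁻¹ * b) = B2 (entries a) (entries b) := by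
  ext i j
  fin_cases i <;> fin_cases j <;>
    simp [entries, B2, Matrix.mul_apply, Fin.sum_univ_two, Matrix.adjugate_fin_two] <;> ring

theorem det2_entries (a : SL 2) : det2 (entries a) = 1 := by
  have := a.2
  rw [Matrix.det_fin_two] at this
  exact this

theorem entries_inj {n : ℕ} {a b : SL n} (h : entries a = entries b) : a = b := by
  apply Subtype.ext
  ext i j
  exact congrFun (congrFun h i) j

theorem contDiffOn_B2 {E : Type*} [NormedAddCommGroup E] [NormedSpace ℝ E] {m : WithTop ℕ∞}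
    {f h : E → V2} {O : Set E} (hf : ContDiffOn ℝ m f O) (hh : ContDiffOn ℝ m h O) :
    ContDiffOn ℝ m (fun x => B2 (f x) (h x)) O := by
  have cf : ∀ i j, ContDiffOn ℝ m (fun x => f x i j) O := fun i j =>
    contDiffOn_pi.1 (contDiffOn_pi.1 hf i) j
  have ch : ∀ i j, ContDiffOn ℝ m (fun x => h x i j) O := fun i j =>
    contDiffOn_pi.1 (contDiffOn_pi.1 hh i) j
  rw [contDiffOn_pi]
  intro i
  rw [contDiffOn_pi]
  intro j
  fin_cases i <;> fin_cases j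
  · exact ((cf 1 1).mul (ch 0 0)).sub ((cf 0 1).mul (ch 1 0))
  · exact ((cf 1 1).mul (ch 0 1)).sub ((cf 0 1).mul (ch 1 1))
  · exact ((cf 1 0).neg.mul (ch 0 0)).add ((cf 0 0).mul (ch 1 0))
  · exact ((cf 1 0).neg.mul (ch 0 1)).add ((cf 0 0).mul (ch 1 1))

theorem differentiable_det2 : Differentiable ℝ det2 := by
  have c : ∀ i j, Differentiable ℝ (fun x : V2 => x i j) := fun i j =>
    differentiable_pi.1 (differentiable_apply i) j
  exact ((c 0 0).mul (c 1 1)).sub ((c 0 1).mul (c 1 0))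

/-- a patch of a submanifold: what is used in the argument -/
structure Patch (d : ℕ) (M : Set (SL 2)) where
  O : Set (Fin d → ℝ)
  φ : (Fin d → ℝ) → SL 2
  isOpen : IsOpen O
  ne : O.Nonempty
  smooth : ContDiffOn ℝ 1 (fun v => entries (φ v)) O
  maps : ∀ v ∈ O, φ v ∈ M
  inj : InjOn φ O

theorem exists_patch {d : ℕ} {M : Set (SL 2)} (h : IsSubmanifold d M) : Nonempty (Patch d M) := by
  obtain ⟨⟨x, hx⟩, hM⟩ := h
  obtain ⟨U, O, φ, ψ, hxU, _, hO, hs, _, h1, h2, _⟩ := hM x hx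
  exact ⟨⟨O, φ, hO, ⟨ψ x, (h2 x ⟨hx, hxU⟩).1⟩, hs.of_le (by norm_num), fun v hv => (h1 v hv).1.1,
    fun v hv w hw hvw => by rw [← (h1 v hv).2, ← (h1 w hw).2, hvw]⟩⟩

section
variable {d₁ d₂ : ℕ} {S T : Set (SL 2)} (p : Patch d₁ S) (q : Patch d₂ T)

/-- the pair map -/
def pm (w : (Fin d₁ → ℝ) × (Fin d₂ → ℝ)) : V2 := entries ((p.φ w.1)⁻¹ * q.φ w.2)

theorem pm_smooth : ContDiffOn ℝ 1 (pm p q) (p.O ×ˢ q.O) := by
  have h1 : ContDiffOn ℝ 1 (fun w : (Fin d₁ → ℝ) × (Fin d₂ → ℝ) => entries (p.φ w.1))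
      (p.O ×ˢ q.O) := p.smooth.comp contDiff_fst.contDiffOn (fun w hw => hw.1)
  have h2 : ContDiffOn ℝ 1 (fun w : (Fin d₁ → ℝ) × (Fin d₂ → ℝ) => entries (q.φ w.2))
      (p.O ×ˢ q.O) := q.smooth.comp contDiff_snd.contDiffOn (fun w hw => hw.2)
  have h3 := contDiffOn_B2 h1 h2
  have h4 : pm p q = fun w => B2 (entries (p.φ w.1)) (entries (q.φ w.2)) := by
    funext w
    exact entries_inv_mul _ _
  rw [h4]
  exact h3

/-- linear part of the extended pair map -/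
noncomputable def ext1 (w : (Fin d₁ → ℝ) × (Fin d₂ → ℝ)) :
    ((Fin d₁ → ℝ) × (Fin d₂ → ℝ)) × ℝ →L[ℝ] V2 :=
  (fderiv ℝ (pm p q) w).coprod ((ContinuousLinearMap.id ℝ ℝ).smulRight (pm p q w))

theorem ext1_apply (w δ : (Fin d₁ → ℝ) × (Fin d₂ → ℝ)) (c : ℝ) :
    ext1 p q w (δ, c) = fderiv ℝ (pm p q) w δ + c • pm p q w := by
  simp [ext1]

theorem det2_smul (c : ℝ) (a : V2) : det2 (c • a) = c ^ 2 * det2 a := by
  simp [det2]; ring

theorem exists_ext1_injective (hpair : ∀ x ∈ S, ∀ x' ∈ S, ∀ y ∈ T, ∀ y' ∈ T,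
    x⁻¹ * y = x'⁻¹ * y' → x = x' ∧ y = y') :
    ∃ w ∈ p.O ×ˢ q.O, Function.Injective (ext1 p q w) := by
  have hopen : IsOpen (p.O ×ˢ q.O) := p.isOpen.prod q.isOpen
  obtain ⟨w, hw, hinj⟩ := exists_injective_fderiv hopen (p.ne.prod q.ne) (pm_smooth p q) (by
    intro a ha b hb hab
    have h1 := entries_inj hab
    obtain ⟨h2, h3⟩ := hpair _ (p.maps _ ha.1) _ (p.maps _ hb.1) _ (q.maps _ ha.2) _
      (q.maps _ hb.2) h1
    exact Prod.ext (p.inj ha.1 hb.1 h2) (q.inj ha.2 hb.2 h3))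
  refine ⟨w, hw, ?_⟩
  have hd : HasFDerivAt (pm p q) (fderiv ℝ (pm p q) w) w :=
    (((pm_smooth p q).contDiffAt (hopen.mem_nhds hw)).differentiableAt (by norm_num)).hasFDerivAt
  have hL : HasFDerivAt det2 (fderiv ℝ det2 (pm p q w)) (pm p q w) :=
    (differentiable_det2 _).hasFDerivAt
  -- derivative of det2 kills the range
  have hkill : ∀ δ, fderiv ℝ det2 (pm p q w) (fderiv ℝ (pm p q) w δ) = 0 := by
    intro δ
    have hc : HasFDerivAt (fun z => det2 (pm p q z))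
        ((fderiv ℝ det2 (pm p q w)).comp (fderiv ℝ (pm p q) w)) w := hL.comp w hd
    have hconst : (fun z => det2 (pm p q z)) = fun _ => 1 := by
      funext z; exact det2_entries _
    rw [hconst] at hc
    have := hc.unique (hasFDerivAt_const (1 : ℝ) w)
    exact DFunLike.congr_fun this δ
  have heuler : fderiv ℝ det2 (pm p q w) (pm p q w) = 2 := by
    have h1 : HasDerivAt (fun c : ℝ => c • pm p q w) (pm p q w) 1 := by
      simpa using (hasDerivAt_id (1 : ℝ)).smul_const (pm p q w)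
    have h2 : HasDerivAt (fun c : ℝ => det2 (c • pm p q w))
        (fderiv ℝ det2 (pm p q w) (pm p q w)) 1 := by
      have hL' : HasFDerivAt det2 (fderiv ℝ det2 (pm p q w)) ((1 : ℝ) • pm p q w) := by
        rw [one_smul]; exact hL
      exact hL'.comp_hasDerivAt (1 : ℝ) h1
    have h3 : (fun c : ℝ => det2 (c • pm p q w)) = fun c => c ^ 2 := by
      funext c
      rw [det2_smul, show det2 (pm p q w) = 1 from det2_entries _, mul_one]
    rw [h3] at h2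
    have h4 : HasDerivAt (fun c : ℝ => c ^ 2) 2 1 := by
      simpa using hasDerivAt_pow 2 (1 : ℝ)
    exact h2.unique h4
  rw [injective_iff_map_eq_zero]
  rintro ⟨δ, c⟩ h
  rw [ext1_apply] at h
  have h1 := congrArg (fderiv ℝ det2 (pm p q w)) h
  rw [map_add, hkill, map_smul, heuler, map_zero, zero_add, smul_eq_mul] at h1
  have hc : c = 0 := by linarith
  subst hc
  rw [zero_smul, add_zero] at h
  have h2 : δ = 0 := hinj (by rw [h, map_zero])
  rw [h2]; rfl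

theorem finrank_dom : Module.finrank ℝ (((Fin d₁ → ℝ) × (Fin d₂ → ℝ)) × ℝ) = d₁ + d₂ + 1 := by
  simp [Module.finrank_prod]

theorem finrank_V2 : Module.finrank ℝ V2 = 4 := by
  rw [Module.finrank_pi_fintype]
  simp

end

theorem TPP.pair {G : Type*} [Group G] {S T U : Set G} (h : TPP S T U) (hU : U.Nonempty) :
    ∀ x ∈ S, ∀ x' ∈ S, ∀ y ∈ T, ∀ y' ∈ T, x⁻¹ * y = x'⁻¹ * y' → x = x' ∧ y = y' := by
  intro x hx x' hx' y hy y' hy' e
  obtain ⟨u, hu⟩ := hU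
  have := h (x' * x⁻¹) ⟨x', hx', x, hx, rfl⟩ (y * y'⁻¹) ⟨y, hy, y', hy', rfl⟩ (u * u⁻¹)
    ⟨u, hu, u, hu, rfl⟩ (by
      have : x' * x⁻¹ * (y * y'⁻¹) * (u * u⁻¹) = x' * (x⁻¹ * y) * y'⁻¹ := by group
      rw [this, e]; group)
  exact ⟨(mul_inv_eq_one.1 this.1).symm, mul_inv_eq_one.1 this.2.1⟩

theorem TPP.cyc {G : Type*} [Group G] {S T U : Set G} (h : TPP S T U) : TPP T U S := by
  intro t ht u hu s hs e
  have e' : s * t * u = 1 := by
    have : s * t * u = s * (t * u * s) * s⁻¹ := by group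
    rw [this, e]; group
  obtain ⟨h1, h2, h3⟩ := h s hs t ht u hu e'
  exact ⟨h2, h3, h1⟩

theorem pair_le {d₁ d₂ d₃ : ℕ} {S T U : Set (SL 2)} (hS : IsSubmanifold d₁ S)
    (hT : IsSubmanifold d₂ T) (hU : IsSubmanifold d₃ U) (h : TPP S T U) : d₁ + d₂ ≤ 3 := by
  obtain ⟨p⟩ := exists_patch hS
  obtain ⟨q⟩ := exists_patch hT
  obtain ⟨w, _, hinj⟩ := exists_ext1_injective p q (h.pair hU.1)
  have := LinearMap.finrank_le_finrank_of_injective (f := (ext1 p q w).toLinearMap) hinj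
  rw [finrank_dom, finrank_V2] at this
  omega

theorem no_pair {d₁ d₂ d₃ : ℕ} {S T U : Set (SL 2)} (hS : IsSubmanifold d₁ S)
    (hT : IsSubmanifold d₂ T) (hU : IsSubmanifold d₃ U) (h : TPP S T U) (h12 : d₁ + d₂ = 3) :
    d₃ = 0 := by
  by_contra h3
  obtain ⟨p⟩ := exists_patch hS
  obtain ⟨q⟩ := exists_patch hT
  obtain ⟨k⟩ := exists_patch hU
  obtain ⟨w, hw, hinj⟩ := exists_ext1_injective p q (h.pair hU.1)
  have hopen : IsOpen (p.O ×ˢ q.O) := p.isOpen.prod q.isOpen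
  -- the extended map
  let Φ : ((Fin d₁ → ℝ) × (Fin d₂ → ℝ)) × ℝ → V2 := fun z => z.2 • pm p q z.1
  have hC : ContDiffAt ℝ 1 Φ (w, 1) := by
    have h1 : ContDiffAt ℝ 1 (pm p q) w := (pm_smooth p q).contDiffAt (hopen.mem_nhds hw)
    have h2 : ContDiffAt ℝ 1 (fun z : ((Fin d₁ → ℝ) × (Fin d₂ → ℝ)) × ℝ => pm p q z.1) (w, 1) :=
      ContDiffAt.comp (g := pm p q) (f := Prod.fst) (w, (1 : ℝ)) h1 contDiffAt_fst
    exact contDiffAt_snd.smul h2
  have hD : HasFDerivAt Φ (ext1 p q w) (w, 1) := by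
    have h1 : HasFDerivAt (pm p q) (fderiv ℝ (pm p q) w) w :=
      (((pm_smooth p q).contDiffAt (hopen.mem_nhds hw)).differentiableAt (by norm_num)).hasFDerivAt
    have h2 : HasFDerivAt (fun z : ((Fin d₁ → ℝ) × (Fin d₂ → ℝ)) × ℝ => pm p q z.1)
        ((fderiv ℝ (pm p q) w).comp (ContinuousLinearMap.fst ℝ _ ℝ)) (w, 1) :=
      HasFDerivAt.comp (g := pm p q) (f := Prod.fst) (w, (1 : ℝ)) h1 hasFDerivAt_fst
    have h4 := (hasFDerivAt_snd (𝕜 := ℝ) (p := (w, (1 : ℝ)))).smul h2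
    refine h4.congr_fderiv ?_
    refine ContinuousLinearMap.ext ?_
    rintro ⟨δ, c⟩
    rw [ext1_apply]
    simp
  have hS' : HasStrictFDerivAt Φ (ext1 p q w) (w, 1) := hC.hasStrictFDerivAt' hD (by norm_num)
  have hsurj : (ext1 p q w).range = ⊤ := by
    have h5 : Function.Surjective (ext1 p q w) := by
      have := (LinearMap.injective_iff_surjective_of_finrank_eq_finrank
        (f := (ext1 p q w).toLinearMap) (by rw [finrank_dom, finrank_V2]; omega)).1 hinj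
      exact this
    exact LinearMap.range_eq_top.2 h5
  have hmap := hS'.map_nhds_eq_of_surj hsurj
  have hΦ1 : Φ (w, 1) = pm p q w := by simp [Φ]
  rw [hΦ1] at hmap
  -- a neighbourhood
  have hN : Φ '' ((p.O ×ˢ q.O) ×ˢ Set.Ioi (0 : ℝ)) ∈ 𝓝 (pm p q w) := by
    rw [← hmap]
    exact image_mem_map ((hopen.prod isOpen_Ioi).mem_nhds ⟨hw, by norm_num⟩)
  -- small elements of Q(U)
  obtain ⟨v₀, hv₀⟩ := k.ne
  let i₀ : Fin d₃ := ⟨0, Nat.pos_of_ne_zero h3⟩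
  let v : ℝ → (Fin d₃ → ℝ) := fun t => v₀ + t • (Pi.single i₀ 1)
  have hv : Continuous v := continuous_const.add (continuous_id.smul continuous_const)
  have hv0 : v 0 = v₀ := by simp [v]
  have hvO : ∀ᶠ t in 𝓝 (0 : ℝ), v t ∈ k.O := by
    apply hv.continuousAt.eventually
    rw [hv0]
    exact k.isOpen.mem_nhds hv₀
  have hcontk : ContinuousAt (fun t => k.φ (v t)) 0 := by
    have h1 : ContinuousAt (fun t => entries (k.φ (v t))) 0 := by
      have h2 : ContinuousAt (fun u => entries (k.φ u)) (v 0) := by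
        rw [hv0]
        exact (k.smooth.contDiffAt (k.isOpen.mem_nhds hv₀)).continuousAt
      exact ContinuousAt.comp h2 hv.continuousAt
    have hind : IsInducing (entries : SL 2 → V2) := by
      have : IsInducing (Subtype.val : SL 2 → Matrix (Fin 2) (Fin 2) ℝ) := IsInducing.subtypeVal
      exact this
    exact hind.continuousAt_iff.2 h1
  have hcontu : ContinuousAt (fun t => entries ((p.φ w.1)⁻¹ * (k.φ (v t) * (k.φ v₀)⁻¹)⁻¹ * q.φ w.2)) 0 := by
    have hcent : Continuous (entries : SL 2 → V2) := by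
      have : Continuous (Subtype.val : SL 2 → Matrix (Fin 2) (Fin 2) ℝ) := continuous_subtype_val
      exact this
    have h1 : ContinuousAt (fun t => (p.φ w.1)⁻¹ * (k.φ (v t) * (k.φ v₀)⁻¹)⁻¹ * q.φ w.2) 0 :=
      ((continuousAt_const.mul ((hcontk.mul continuousAt_const).inv))).mul continuousAt_const
    exact hcent.continuousAt.comp h1
  have hev : ∀ᶠ t in 𝓝 (0 : ℝ), entries ((p.φ w.1)⁻¹ * (k.φ (v t) * (k.φ v₀)⁻¹)⁻¹ * q.φ w.2) ∈
      Φ '' ((p.O ×ˢ q.O) ×ˢ Set.Ioi (0 : ℝ)) := by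
    have e0 : (p.φ w.1)⁻¹ * (k.φ (v 0) * (k.φ v₀)⁻¹)⁻¹ * q.φ w.2 = (p.φ w.1)⁻¹ * q.φ w.2 := by
      rw [hv0]; group
    have e1 : entries ((p.φ w.1)⁻¹ * (k.φ (v 0) * (k.φ v₀)⁻¹)⁻¹ * q.φ w.2) = pm p q w := by
      rw [e0]; rfl
    have h2 := hcontu.tendsto
    rw [e1] at h2
    exact h2.eventually hN
  obtain ⟨ε, hε, hall⟩ := Metric.eventually_nhds_iff.1 (hev.and hvO)
  have hεh : dist (ε / 2) 0 < ε := by
    rw [dist_zero_right, Real.norm_of_nonneg (by linarith)]; linarith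
  obtain ⟨⟨⟨z, c⟩, ⟨hz, hc⟩, hzc⟩, hvε⟩ := hall hεh
  set u : SL 2 := k.φ (v (ε / 2)) * (k.φ v₀)⁻¹ with hu
  have hdet := congrArg det2 hzc
  rw [det2_entries] at hdet
  have hdet' : c ^ 2 = 1 := by
    have h1 : det2 (Φ (z, c)) = c ^ 2 := by
      show det2 (c • pm p q z) = c ^ 2
      rw [det2_smul, show det2 (pm p q z) = 1 from det2_entries _, mul_one]
    rw [← h1, hdet]
  have hc1 : c = 1 := by
    have hc0 : 0 < c := hc
    nlinarith
  have hzc' : pm p q z = entries ((p.φ w.1)⁻¹ * u⁻¹ * q.φ w.2) := by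
    have h1 : Φ (z, c) = pm p q z := by simp [Φ, hc1]
    rw [← h1, hzc]
  have heq := entries_inj hzc'
  have hz1 : z.1 ∈ p.O := hz.1
  have hz2 : z.2 ∈ q.O := hz.2
  obtain ⟨_, _, hu1⟩ := h (p.φ w.1 * (p.φ z.1)⁻¹) ⟨_, p.maps _ hw.1, _, p.maps _ hz1, rfl⟩
    (q.φ z.2 * (q.φ w.2)⁻¹) ⟨_, q.maps _ hz2, _, q.maps _ hw.2, rfl⟩ u
    ⟨_, k.maps _ hvε, _, k.maps _ hv₀, rfl⟩ (by
      have : p.φ w.1 * (p.φ z.1)⁻¹ * (q.φ z.2 * (q.φ w.2)⁻¹) * u =
        p.φ w.1 * ((p.φ z.1)⁻¹ * q.φ z.2) * (q.φ w.2)⁻¹ * u := by group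
      rw [this, heq]; group)
  have h6 : v (ε / 2) = v₀ := k.inj hvε hv₀ (mul_inv_eq_one.1 hu1)
  have h7 := congrFun h6 i₀
  simp [v] at h7
  linarith

/-- in `SL(2,ℝ)` the dimensions of a TPP triple add up to at most three -/
theorem sum_le_three {d₁ d₂ d₃ : ℕ} {S T U : Set (SL 2)} (hS : IsSubmanifold d₁ S)
    (hT : IsSubmanifold d₂ T) (hU : IsSubmanifold d₃ U) (h : TPP S T U) : d₁ + d₂ + d₃ ≤ 3 := by
  have a1 := pair_le hS hT hU h
  have a2 := pair_le hT hU hS h.cyc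
  have a3 := pair_le hU hS hT h.cyc.cyc
  have b1 := no_pair hS hT hU h
  have b2 := no_pair hT hU hS h.cyc
  have b3 := no_pair hU hS hT h.cyc.cyc
  by_contra hcon
  push Not at hcon
  have c1 : d₁ + d₂ ≠ 3 := fun e => by have := b1 e; omega
  have c2 : d₂ + d₃ ≠ 3 := fun e => by have := b2 e; omega
  have c3 : d₃ + d₁ ≠ 3 := fun e => by have := b3 e; omega
  omega

end Pool.Agent.V11250.LieExp
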