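import Pool.Agent.V11250.LieExp.Def

namespace Pool.Agent.V11250.LieExp

open Filter Topology Set Matrix
open scoped ContDiff

theorem continuous_entries {n : ℕ} : Continuous (entries : SL n → Fin n → Fin n → ℝ) := by
  have : Continuous (Subtype.val : SL n → Matrix (Fin n) (Fin n) ℝ) := continuous_subtype_val
  exact this

/-- a global parametrisation with a left inverse that is differentiable on the ambient space -/
theorem mk_submanifold {n : ℕ} {ι : Type} [Fintype ι] (φ : (ι → ℝ) → SL n)
    (h : (Fin n → Fin n → ℝ) → (ι → ℝ)) (hφ : ContDiff ℝ ∞ (fun v => entries (φ v)))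
    (hh : ∀ v, DifferentiableAt ℝ h (entries (φ v))) (hl : ∀ v, h (entries (φ v)) = v) :
    IsSubmanifold (Fintype.card ι) (Set.range φ) := by
  classical
  let ε : ι ≃ Fin (Fintype.card ι) := Fintype.equivFin ι
  let e : (Fin (Fintype.card ι) → ℝ) ≃L[ℝ] (ι → ℝ) :=
    (LinearEquiv.funCongrLeft ℝ ℝ ε).toContinuousLinearEquiv
  refine ⟨⟨φ 0, 0, rfl⟩, ?_⟩
  intro x _
  refine ⟨Set.univ, Set.univ, fun w => φ (e w), fun g => e.symm (h (entries g)), trivial,
    isOpen_univ, isOpen_univ, ?_, ?_, ?_, ?_, ?_⟩
  · exact (hφ.comp e.contDiff).contDiffOn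
  · intro w _
    have hF : DifferentiableAt ℝ (fun w => entries (φ (e w))) w :=
      (hφ.comp e.contDiff).differentiable (by norm_num) w
    have hH : DifferentiableAt ℝ (fun A => e.symm (h A)) (entries (φ (e w))) :=
      e.symm.differentiableAt.comp _ (hh (e w))
    have hc : (fun A => e.symm (h A)) ∘ (fun w => entries (φ (e w))) = id := by
      funext w'
      simp [hl]
    have h1 := (hH.hasFDerivAt.comp w hF.hasFDerivAt)
    rw [hc] at h1
    have h2 := h1.unique (hasFDerivAt_id w)
    intro a b hab
    have ha := DFunLike.congr_fun h2 a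
    have hb := DFunLike.congr_fun h2 b
    simp only [ContinuousLinearMap.comp_apply, ContinuousLinearMap.id_apply] at ha hb
    rw [← ha, ← hb, hab]
  · intro v _
    exact ⟨⟨⟨e v, rfl⟩, trivial⟩, by simp [hl]⟩
  · rintro g ⟨⟨v, rfl⟩, _⟩
    exact ⟨trivial, by simp [hl]⟩
  · rintro g ⟨⟨v, rfl⟩, _⟩
    apply ContinuousAt.continuousWithinAt
    exact e.symm.continuous.continuousAt.comp
      ((hh v).continuousAt.comp continuous_entries.continuousAt)

/-- index set of the strictly upper triangular positions -/
abbrev Pos (n : ℕ) := {p : Fin n × Fin n // p.1 < p.2}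

theorem card_pos (n : ℕ) : 2 * Fintype.card (Pos n) + n = n * n := by
  classical
  have h1 : Fintype.card (Pos n) = ((Finset.univ : Finset (Fin n × Fin n)).filter
      (fun p => p.1 < p.2)).card := Fintype.card_subtype _
  have h2 : ((Finset.univ : Finset (Fin n × Fin n)).filter (fun p => p.2 < p.1)).card =
      ((Finset.univ : Finset (Fin n × Fin n)).filter (fun p => p.1 < p.2)).card := by
    apply Finset.card_bij (fun p _ => (p.2, p.1))
    · intro p hp; simpa using hp
    · rintro ⟨a, b⟩ _ ⟨c, d⟩ _ h; simp at h ⊢; exact ⟨h.2, h.1⟩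
    · rintro ⟨a, b⟩ hb; exact ⟨(b, a), by simpa using hb, rfl⟩
  have h3 : ((Finset.univ : Finset (Fin n × Fin n)).filter (fun p => p.1 = p.2)).card = n := by
    have : ((Finset.univ : Finset (Fin n × Fin n)).filter (fun p => p.1 = p.2)) =
        (Finset.univ : Finset (Fin n)).image (fun i => (i, i)) := by
      ext ⟨a, b⟩
      simp [eq_comm]
    rw [this, Finset.card_image_of_injective _ (fun a b h => by simpa using h), Finset.card_univ,
      Fintype.card_fin]
  have h4 : (Finset.univ : Finset (Fin n × Fin n)).card = n * n := by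
    rw [Finset.card_univ, Fintype.card_prod, Fintype.card_fin]
  have h5 : (Finset.univ : Finset (Fin n × Fin n)) =
      ((Finset.univ : Finset (Fin n × Fin n)).filter (fun p => p.1 < p.2)) ∪
      (((Finset.univ : Finset (Fin n × Fin n)).filter (fun p => p.2 < p.1)) ∪
       ((Finset.univ : Finset (Fin n × Fin n)).filter (fun p => p.1 = p.2))) := by
    ext ⟨a, b⟩
    simp only [Finset.mem_univ, Finset.mem_union, Finset.mem_filter, true_and, true_iff]
    rcases lt_trichotomy a b with h | h | h
    · exact Or.inl h
    · exact Or.inr (Or.inr h)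
    · exact Or.inr (Or.inl h)
  have h6 : (Finset.univ : Finset (Fin n × Fin n)).card =
      ((Finset.univ : Finset (Fin n × Fin n)).filter (fun p => p.1 < p.2)).card +
      (((Finset.univ : Finset (Fin n × Fin n)).filter (fun p => p.2 < p.1)).card +
       ((Finset.univ : Finset (Fin n × Fin n)).filter (fun p => p.1 = p.2)).card) := by
    conv_lhs => rw [h5]
    rw [Finset.card_union_of_disjoint, Finset.card_union_of_disjoint]
    · rw [Finset.disjoint_left]
      rintro ⟨a, b⟩ h1 h2
      simp only [Finset.mem_filter, Finset.mem_univ, true_and] at h1 h2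
      exact absurd h2 (ne_of_gt h1)
    · rw [Finset.disjoint_left]
      rintro ⟨a, b⟩ h1 h2
      simp only [Finset.mem_filter, Finset.mem_univ, true_and, Finset.mem_union] at h1 h2
      rcases h2 with h2 | h2
      · exact absurd h1 (not_lt.2 h2.le)
      · exact absurd h2 (ne_of_lt h1)
  rw [h4, h2, h3, ← h1] at h6
  omega

section M12
variable {m : ℕ}

/-- the weights of the one-parameter group of diagonal matrices -/
def wt (i : Fin (m + 3)) : ℝ :=
  (Pi.single 0 1 : Fin (m + 3) → ℝ) i + (Pi.single (Fin.last (m + 2)) 1 : Fin (m + 3) → ℝ) i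
    - (Pi.single 1 2 : Fin (m + 3) → ℝ) i

theorem wt_sum : ∑ i : Fin (m + 3), wt i = 0 := by
  simp only [wt, Finset.sum_sub_distrib, Finset.sum_add_distrib]
  simp
  norm_num

theorem wt_zero : wt (0 : Fin (m + 3)) = 1 := by
  have h1 : (0 : Fin (m + 3)) ≠ Fin.last (m + 2) := by
    intro h; have := congrArg Fin.val h; simp at this
  have h2 : (0 : Fin (m + 3)) ≠ 1 := by
    intro h; have := congrArg Fin.val h; simp at this
  simp [wt, h1, h2]

theorem wt_last : wt (Fin.last (m + 2)) = 1 := by
  have h1 : Fin.last (m + 2) ≠ (0 : Fin (m + 3)) := by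
    intro h; have := congrArg Fin.val h; simp at this
  have h2 : Fin.last (m + 2) ≠ (1 : Fin (m + 3)) := by
    intro h; have := congrArg Fin.val h; simp at this
  simp [wt, h1, h2]

/-- upper triangular matrices with diagonal `exp (wt i * t)` -/
noncomputable def upMat (v : Option (Pos (m + 3)) → ℝ) : Matrix (Fin (m + 3)) (Fin (m + 3)) ℝ :=
  fun i j => if h : i < j then v (some ⟨(i, j), h⟩) else
    if i = j then Real.exp (wt i * v none) else 0

theorem upMat_det (v : Option (Pos (m + 3)) → ℝ) : (upMat v).det = 1 := by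
  rw [Matrix.det_of_isUpperTriangular]
  · have : ∀ i, upMat v i i = Real.exp (wt i * v none) := fun i => by simp [upMat]
    simp only [this]
    rw [← Real.exp_sum, ← Finset.sum_mul, wt_sum, zero_mul, Real.exp_zero]
  · intro i j hij
    have h1 : ¬ i < j := not_lt.2 (le_of_lt hij)
    have h2 : i ≠ j := ne_of_gt hij
    simp [upMat, h1, h2]

noncomputable def up (v : Option (Pos (m + 3)) → ℝ) : SL (m + 3) := ⟨upMat v, upMat_det v⟩

theorem up_sub : IsSubmanifold (Fintype.card (Option (Pos (m + 3))))
    (Set.range (up : (Option (Pos (m + 3)) → ℝ) → SL (m + 3))) := by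
  refine mk_submanifold up (fun A o => match o with
    | none => Real.log (A 0 0)
    | some p => A p.1.1 p.1.2) ?_ ?_ ?_
  · rw [contDiff_pi]
    intro i
    rw [contDiff_pi]
    intro j
    show ContDiff ℝ ∞ (fun v => upMat v i j)
    unfold upMat
    split_ifs with h1 h2
    · exact contDiff_apply ℝ ℝ _
    · exact Real.contDiff_exp.comp (contDiff_const.mul (contDiff_apply ℝ ℝ _))
    · exact contDiff_const
  · intro v
    rw [differentiableAt_pi]
    rintro (_ | p)
    · have h1 : entries (up v) 0 0 ≠ 0 := by
        have : entries (up v) 0 0 = Real.exp (wt (0 : Fin (m + 3)) * v none) := by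
          show upMat v 0 0 = _
          simp [upMat]
        rw [this]; exact (Real.exp_pos _).ne'
      have h2 : DifferentiableAt ℝ (fun A : Fin (m + 3) → Fin (m + 3) → ℝ => A 0 0)
          (entries (up v)) := differentiableAt_pi.1 (differentiableAt_apply _ _) _
      exact h2.log h1
    · exact differentiableAt_pi.1 (differentiableAt_apply _ _) _
  · intro v
    funext o
    rcases o with _ | p
    · show Real.log (upMat v 0 0) = v none
      have : upMat v 0 0 = Real.exp (wt (0 : Fin (m + 3)) * v none) := by simp [upMat]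
      rw [this, Real.log_exp, wt_zero, one_mul]
    · show upMat v p.1.1 p.1.2 = v (some p)
      have h1 : p.1.1 < p.1.2 := p.2
      simp [upMat, h1]

/-- lower unipotent matrices -/
noncomputable def loMat {n : ℕ} (v : Pos n → ℝ) : Matrix (Fin n) (Fin n) ℝ :=
  fun i j => if h : j < i then v ⟨(j, i), h⟩ else if i = j then 1 else 0

theorem loMat_det {n : ℕ} (v : Pos n → ℝ) : (loMat v).det = 1 := by
  rw [Matrix.det_of_isLowerTriangular]
  · simp [loMat]
  · intro i j hij
    have hij' : i < j := hij
    have h1 : ¬ j < i := not_lt.2 (le_of_lt hij')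
    have h2 : i ≠ j := ne_of_lt hij'
    simp [loMat, h1, h2]

noncomputable def lo {n : ℕ} (v : Pos n → ℝ) : SL n := ⟨loMat v, loMat_det v⟩

theorem lo_sub (n : ℕ) : IsSubmanifold (Fintype.card (Pos n))
    (Set.range (lo : (Pos n → ℝ) → SL n)) := by
  refine mk_submanifold lo (fun A p => A p.1.2 p.1.1) ?_ ?_ ?_
  · rw [contDiff_pi]
    intro i
    rw [contDiff_pi]
    intro j
    show ContDiff ℝ ∞ (fun v => loMat v i j)
    unfold loMat
    split_ifs with h1 h2
    · exact contDiff_apply ℝ ℝ _
    · exact contDiff_const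
    · exact contDiff_const
  · intro v
    rw [differentiableAt_pi]
    intro p
    exact differentiableAt_pi.1 (differentiableAt_apply _ _) _
  · intro v
    funext p
    show loMat v p.1.2 p.1.1 = v p
    have h1 : p.1.1 < p.1.2 := p.2
    simp [loMat, h1]

end M12

end Pool.Agent.V11250.LieExp
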