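import Pool.Agent.V11250.LieExp.Build

namespace Pool.Agent.V11250.LieExp

open Filter Topology Set Matrix
open scoped ContDiff

section smooth
variable {E : Type*} [NormedAddCommGroup E] [NormedSpace ℝ E] {n : ℕ}

theorem contDiffAt_det {k : ℕ} {A : E → Matrix (Fin k) (Fin k) ℝ} {x : E}
    (hA : ∀ i j, ContDiffAt ℝ ∞ (fun y => A y i j) x) : ContDiffAt ℝ ∞ (fun y => (A y).det) x := by
  simp only [Matrix.det_apply']
  apply ContDiffAt.sum
  intro σ _
  exact contDiffAt_const.mul (contDiffAt_prod fun i _ => hA _ _)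

theorem contDiffAt_adj {k : ℕ} {A : E → Matrix (Fin k) (Fin k) ℝ} {x : E}
    (hA : ∀ i j, ContDiffAt ℝ ∞ (fun y => A y i j) x) (i j : Fin k) :
    ContDiffAt ℝ ∞ (fun y => (A y).adjugate i j) x := by
  simp only [Matrix.adjugate_apply]
  apply contDiffAt_det
  intro a b
  simp only [Matrix.updateRow_apply]
  split_ifs
  · exact contDiffAt_const
  · exact hA _ _

theorem contDiffAt_inv {k : ℕ} {A : E → Matrix (Fin k) (Fin k) ℝ} {x : E}
    (hA : ∀ i j, ContDiffAt ℝ ∞ (fun y => A y i j) x) (hdet : (A x).det ≠ 0) (i j : Fin k) :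
    ContDiffAt ℝ ∞ (fun y => (A y)⁻¹ i j) x := by
  have : (fun y => (A y)⁻¹ i j) = fun y => ((A y).det)⁻¹ * (A y).adjugate i j := by
    funext y
    rw [Matrix.inv_def, Ring.inverse_eq_inv', Matrix.smul_apply, smul_eq_mul]
  rw [this]
  exact ((contDiffAt_det hA).inv hdet).mul (contDiffAt_adj hA i j)

/-- the Cayley transform -/
noncomputable def cay {k : ℕ} (A : Matrix (Fin k) (Fin k) ℝ) : Matrix (Fin k) (Fin k) ℝ :=
  (1 - A) * (1 + A)⁻¹

theorem contDiffAt_cay {k : ℕ} {A : E → Matrix (Fin k) (Fin k) ℝ} {x : E}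
    (hA : ∀ i j, ContDiffAt ℝ ∞ (fun y => A y i j) x) (hdet : (1 + A x).det ≠ 0) (i j : Fin k) :
    ContDiffAt ℝ ∞ (fun y => cay (A y) i j) x := by
  simp only [cay, Matrix.mul_apply]
  apply ContDiffAt.sum
  intro l _
  refine ContDiffAt.mul ?_ (contDiffAt_inv (A := fun y => 1 + A y) ?_ hdet l j)
  · simp only [Matrix.sub_apply]
    exact contDiffAt_const.sub (hA _ _)
  · intro a b
    simp only [Matrix.add_apply]
    exact contDiffAt_const.add (hA _ _)

end smooth

section skew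
variable {k : ℕ}

theorem dotProduct_skew {X : Matrix (Fin k) (Fin k) ℝ} (hX : Xᵀ = -X) (y : Fin k → ℝ) :
    y ⬝ᵥ (X *ᵥ y) = 0 := by
  have h1 : y ⬝ᵥ (X *ᵥ y) = (Xᵀ *ᵥ y) ⬝ᵥ y := by
    rw [Matrix.dotProduct_mulVec, ← Matrix.mulVec_transpose]
  rw [hX, Matrix.neg_mulVec, neg_dotProduct] at h1
  have h2 := dotProduct_comm (X *ᵥ y) y
  rw [h2] at h1
  linarith

theorem det_one_add_ne {X : Matrix (Fin k) (Fin k) ℝ} (hX : Xᵀ = -X) : (1 + X).det ≠ 0 := by
  intro h
  obtain ⟨y, hy0, hy⟩ := Matrix.exists_mulVec_eq_zero_iff.2 h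
  apply hy0
  have h1 : y ⬝ᵥ ((1 + X) *ᵥ y) = 0 := by rw [hy, dotProduct_zero]
  rw [Matrix.add_mulVec, Matrix.one_mulVec, dotProduct_add, dotProduct_skew hX, add_zero] at h1
  exact dotProduct_self_eq_zero.1 h1

theorem transpose_one_add {X : Matrix (Fin k) (Fin k) ℝ} (hX : Xᵀ = -X) :
    (1 + X)ᵀ = 1 - X := by
  rw [transpose_add, transpose_one, hX, sub_eq_add_neg]

theorem det_one_sub_eq {X : Matrix (Fin k) (Fin k) ℝ} (hX : Xᵀ = -X) :
    (1 - X).det = (1 + X).det := by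
  rw [← transpose_one_add hX, det_transpose]

theorem cay_det {X : Matrix (Fin k) (Fin k) ℝ} (hX : Xᵀ = -X) : (cay X).det = 1 := by
  have h0 := det_one_add_ne hX
  rw [cay, det_mul, det_nonsing_inv, det_one_sub_eq hX, Ring.inverse_eq_inv',
    mul_inv_cancel₀ h0]

theorem cay_orth {X : Matrix (Fin k) (Fin k) ℝ} (hX : Xᵀ = -X) : cay X * (cay X)ᵀ = 1 := by
  have h0 : IsUnit (1 + X).det := isUnit_iff_ne_zero.2 (det_one_add_ne hX)
  have h1 : IsUnit (1 - X).det := by rw [det_one_sub_eq hX]; exact h0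
  have h2 : (cay X)ᵀ = (1 - X)⁻¹ * (1 + X) := by
    rw [cay, transpose_mul, transpose_nonsing_inv, transpose_one_add hX]
    congr 1
    rw [transpose_sub, transpose_one, hX, sub_neg_eq_add]
  have hcomm : (1 - X) * (1 + X)⁻¹ = (1 + X)⁻¹ * (1 - X) := by
    have e : (1 + X) * (1 - X) = (1 - X) * (1 + X) := by noncomm_ring
    calc (1 - X) * (1 + X)⁻¹ = (1 + X)⁻¹ * (1 + X) * (1 - X) * (1 + X)⁻¹ := by
          rw [nonsing_inv_mul _ h0, one_mul]
      _ = (1 + X)⁻¹ * ((1 + X) * (1 - X)) * (1 + X)⁻¹ := by simp only [mul_assoc]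
      _ = (1 + X)⁻¹ * (1 - X) * ((1 + X) * (1 + X)⁻¹) := by rw [e]; simp only [mul_assoc]
      _ = (1 + X)⁻¹ * (1 - X) := by rw [mul_nonsing_inv _ h0, mul_one]
  rw [h2, cay, hcomm]
  calc (1 + X)⁻¹ * (1 - X) * ((1 - X)⁻¹ * (1 + X))
      = (1 + X)⁻¹ * ((1 - X) * (1 - X)⁻¹) * (1 + X) := by simp only [mul_assoc]
    _ = 1 := by rw [mul_nonsing_inv _ h1, mul_one, nonsing_inv_mul _ h0]

theorem one_add_cay {X : Matrix (Fin k) (Fin k) ℝ} (hX : Xᵀ = -X) :
    1 + cay X = (2 : ℝ) • (1 + X)⁻¹ := by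
  have h0 : IsUnit (1 + X).det := isUnit_iff_ne_zero.2 (det_one_add_ne hX)
  have : 1 + cay X = ((1 + X) + (1 - X)) * (1 + X)⁻¹ := by
    rw [add_mul, mul_nonsing_inv _ h0, cay]
  rw [this]
  have e : (1 + X) + (1 - X) = (2 : ℝ) • (1 : Matrix (Fin k) (Fin k) ℝ) := by
    rw [two_smul]; abel
  rw [e, smul_mul_assoc, one_mul]

theorem det_one_add_cay {X : Matrix (Fin k) (Fin k) ℝ} (hX : Xᵀ = -X) :
    (1 + cay X).det ≠ 0 := by
  rw [one_add_cay hX, det_smul, det_nonsing_inv, Ring.inverse_eq_inv']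
  exact mul_ne_zero (pow_ne_zero _ two_ne_zero) (inv_ne_zero (det_one_add_ne hX))

theorem cay_cay {X : Matrix (Fin k) (Fin k) ℝ} (hX : Xᵀ = -X) : cay (cay X) = X := by
  have h0 : IsUnit (1 + X).det := isUnit_iff_ne_zero.2 (det_one_add_ne hX)
  have h1 : IsUnit (1 + cay X).det := isUnit_iff_ne_zero.2 (det_one_add_cay hX)
  have h2 : 1 - cay X = X * (1 + cay X) := by
    rw [one_add_cay hX]
    have : 1 - cay X = ((1 + X) - (1 - X)) * (1 + X)⁻¹ := by
      rw [sub_mul, mul_nonsing_inv _ h0, cay]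
    rw [this]
    have e : (1 + X) - (1 - X) = (2 : ℝ) • X := by rw [two_smul]; abel
    rw [e, smul_mul_assoc, mul_smul_comm]
  show (1 - cay X) * (1 + cay X)⁻¹ = X
  rw [h2, mul_assoc, mul_nonsing_inv _ h1, mul_one]

end skew

/-- the skew-symmetric matrix with the given entries above the diagonal -/
noncomputable def skew {n : ℕ} (v : Pos n → ℝ) : Matrix (Fin n) (Fin n) ℝ :=
  fun i j => if h : i < j then v ⟨(i, j), h⟩ else if h : j < i then -v ⟨(j, i), h⟩ else 0

theorem skew_transpose {n : ℕ} (v : Pos n → ℝ) : (skew v)ᵀ = -skew v := by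
  ext i j
  rw [transpose_apply, Matrix.neg_apply]
  rcases lt_trichotomy i j with h | h | h
  · simp [skew, h, not_lt.2 h.le]
  · subst h; simp [skew]
  · simp [skew, h, not_lt.2 h.le]

noncomputable def rot {n : ℕ} (v : Pos n → ℝ) : SL n := ⟨cay (skew v), cay_det (skew_transpose v)⟩

theorem rot_sub (n : ℕ) : IsSubmanifold (Fintype.card (Pos n))
    (Set.range (rot : (Pos n → ℝ) → SL n)) := by
  refine mk_submanifold rot (fun A p => cay (Matrix.of A) p.1.1 p.1.2) ?_ ?_ ?_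
  · rw [contDiff_pi]
    intro i
    rw [contDiff_pi]
    intro j
    show ContDiff ℝ ∞ (fun v => cay (skew v) i j)
    rw [contDiff_iff_contDiffAt]
    intro v
    apply contDiffAt_cay (A := fun v => skew v)
    · intro a b
      unfold skew
      split_ifs
      · exact (contDiff_apply ℝ ℝ _).contDiffAt
      · exact (contDiff_apply ℝ ℝ _).contDiffAt.neg
      · exact contDiffAt_const
    · exact det_one_add_ne (skew_transpose v)
  · intro v
    rw [differentiableAt_pi]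
    intro p
    refine (contDiffAt_cay (A := fun A : Fin n → Fin n → ℝ => Matrix.of A) ?_ ?_ _ _).differentiableAt
      (by norm_num)
    · intro a b
      show ContDiffAt ℝ ∞ (fun A : Fin n → Fin n → ℝ => A a b) _
      exact contDiffAt_pi.1 (contDiff_apply ℝ _ _).contDiffAt _
    · exact det_one_add_cay (skew_transpose v)
  · intro v
    funext p
    show cay (cay (skew v)) p.1.1 p.1.2 = v p
    rw [cay_cay (skew_transpose v)]
    have h1 : p.1.1 < p.1.2 := p.2
    simp [skew, h1]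

end Pool.Agent.V11250.LieExp
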