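import Mathlib

namespace Pool.Agent.V11250.LieExp

open scoped ContDiff

/-- The group `SL(n,ℝ)`, with Mathlib's topology (that of the space of matrices). -/
abbrev SL (n : ℕ) := Matrix.SpecialLinearGroup (Fin n) ℝ

/-- The array of entries of `g`, a point of the vector space of all `n × n` real arrays. -/
def entries {n : ℕ} (g : SL n) : Fin n → Fin n → ℝ := fun i j => g.1 i j

/-- `M ⊆ SL(n,ℝ)` is a nonempty smooth (`C^∞`, embedded) submanifold of dimension `d`: every point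
of `M` has an open neighbourhood `U` in `SL(n,ℝ)` such that `M ∩ U` is parametrised by an open
subset `O` of `ℝ^d` through a smooth map `φ` with injective derivative at every point of `O`, which
is a homeomorphism of `O` onto `M ∩ U` (with inverse `ψ`). -/
def IsSubmanifold {n : ℕ} (d : ℕ) (M : Set (SL n)) : Prop :=
  M.Nonempty ∧ ∀ x ∈ M, ∃ (U : Set (SL n)) (O : Set (Fin d → ℝ)) (φ : (Fin d → ℝ) → SL n)
    (ψ : SL n → (Fin d → ℝ)), x ∈ U ∧ IsOpen U ∧ IsOpen O ∧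
      ContDiffOn ℝ ∞ (fun v => entries (φ v)) O ∧
      (∀ v ∈ O, Function.Injective (fderiv ℝ (fun v => entries (φ v)) v)) ∧
      (∀ v ∈ O, φ v ∈ M ∩ U ∧ ψ (φ v) = v) ∧
      (∀ g ∈ M ∩ U, ψ g ∈ O ∧ φ (ψ g) = g) ∧ ContinuousOn ψ (M ∩ U)

/-- The quotient set `Q(X) = {x x'⁻¹ : x, x' ∈ X}`. -/
def Q {G : Type*} [Group G] (X : Set G) : Set G := {g | ∃ x ∈ X, ∃ y ∈ X, g = x * y⁻¹}

/-- The triple product property. -/
def TPP {G : Type*} [Group G] (S T U : Set G) : Prop :=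
  ∀ s ∈ Q S, ∀ t ∈ Q T, ∀ u ∈ Q U, s * t * u = 1 → s = 1 ∧ t = 1 ∧ u = 1

/-- The Lie exponent of `SL(n,ℝ)`, for which `dim G = n² - 1` and `r(G) = n - 1`: the infimum of
`r(G) / ((dim M₁ + dim M₂ + dim M₃)/3 - (dim G - r(G))/2)` over all triples of submanifolds with
the triple product property and `(dim M₁ + dim M₂ + dim M₃)/3 > (dim G - r(G))/2`. -/
noncomputable def lieExponent (n : ℕ) : ENNReal :=
  ⨅ (d₁ : ℕ) (d₂ : ℕ) (d₃ : ℕ) (M₁ : Set (SL n)) (M₂ : Set (SL n)) (M₃ : Set (SL n))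
    (_ : IsSubmanifold d₁ M₁ ∧ IsSubmanifold d₂ M₂ ∧ IsSubmanifold d₃ M₃ ∧ TPP M₁ M₂ M₃ ∧
      (((n : ℝ) ^ 2 - 1) - ((n : ℝ) - 1)) / 2 < ((d₁ : ℝ) + d₂ + d₃) / 3),
    ENNReal.ofReal (((n : ℝ) - 1) /
      (((d₁ : ℝ) + d₂ + d₃) / 3 - (((n : ℝ) ^ 2 - 1) - ((n : ℝ) - 1)) / 2))

end Pool.Agent.V11250.LieExp
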