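import Pool.Agent.V11250.LieExp.Cayley

namespace Pool.Agent.V11250.LieExp

open Matrix

variable {m : ℕ}

/-- upper triangular -/
def Up {k : ℕ} (A : Matrix (Fin k) (Fin k) ℝ) : Prop := ∀ i j, j < i → A i j = 0

theorem Up.mul {k : ℕ} {A B : Matrix (Fin k) (Fin k) ℝ} (hA : Up A) (hB : Up B) :
    Up (A * B) := by
  intro i j hij
  rw [Matrix.mul_apply]
  apply Finset.sum_eq_zero
  intro l _
  rcases lt_or_ge l i with h | h
  · rw [hA i l h, zero_mul]
  · rw [hB l j (lt_of_lt_of_le hij h), mul_zero]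

theorem Up.mul_diag {k : ℕ} {A B : Matrix (Fin k) (Fin k) ℝ} (hA : Up A) (hB : Up B) (i : Fin k) :
    (A * B) i i = A i i * B i i := by
  rw [Matrix.mul_apply]
  apply Finset.sum_eq_single i
  · intro l _ hl
    rcases lt_or_gt_of_ne hl with h | h
    · rw [hA i l h, zero_mul]
    · rw [hB l i h, mul_zero]
  · intro h; exact absurd (Finset.mem_univ _) h

theorem inv_coe {k : ℕ} (g : SL k) : (g⁻¹).1 = (g.1)⁻¹ := by
  rw [Matrix.SpecialLinearGroup.coe_inv, Matrix.inv_def, g.2, Ring.inverse_one, one_smul]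

theorem Up.inv {k : ℕ} {g : SL k} (h : Up g.1) : Up (g⁻¹).1 := by
  rw [inv_coe]
  have : Invertible g.1 := Matrix.invertibleOfIsUnitDet _ (by rw [g.2]; exact isUnit_one)
  have h1 : BlockTriangular g.1 id := fun i j hij => h i j hij
  have h2 := blockTriangular_inv_of_blockTriangular h1
  exact fun i j hij => h2 hij

theorem up_Up (v : Option (Pos (m + 3)) → ℝ) : Up (up v).1 := by
  intro i j hij
  show upMat v i j = 0
  have h1 : ¬ i < j := not_lt.2 hij.le
  have h2 : i ≠ j := ne_of_gt hij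
  simp [upMat, h1, h2]

theorem up_diag (v : Option (Pos (m + 3)) → ℝ) (i : Fin (m + 3)) :
    (up v).1 i i = Real.exp (wt i * v none) := by
  show upMat v i i = _
  simp [upMat]

theorem lo_Up {n : ℕ} (v : Pos n → ℝ) : Up ((lo v).1)ᵀ := by
  intro i j hij
  show loMat v j i = 0
  have h1 : ¬ i < j := not_lt.2 hij.le
  have h2 : j ≠ i := ne_of_lt hij
  simp [loMat, h1, h2]

theorem lo_diag {n : ℕ} (v : Pos n → ℝ) (i : Fin n) : (lo v).1 i i = 1 := by
  show loMat v i i = _
  simp [loMat]

/-- lower unipotent -/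
def LoU {k : ℕ} (A : Matrix (Fin k) (Fin k) ℝ) : Prop := (∀ i j, i < j → A i j = 0) ∧ ∀ i, A i i = 1

theorem LoU.mul {k : ℕ} {A B : Matrix (Fin k) (Fin k) ℝ} (hA : LoU A) (hB : LoU B) :
    LoU (A * B) := by
  have h1 : Up Aᵀ := fun i j hij => hA.1 j i hij
  have h2 : Up Bᵀ := fun i j hij => hB.1 j i hij
  constructor
  · intro i j hij
    have := (h2.mul h1) j i hij
    rw [← transpose_mul] at this
    exact this
  · intro i
    have := h2.mul_diag h1 i
    rw [← transpose_mul, transpose_apply, transpose_apply, transpose_apply, hA.2, hB.2,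
      mul_one] at this
    exact this

theorem LoU.inv {k : ℕ} {g : SL k} (h : LoU g.1) : LoU (g⁻¹).1 := by
  have h1 : Up ((g.transpose).1) := fun i j hij => h.1 j i hij
  have h2 : Up ((g⁻¹).1)ᵀ := by
    have h3 := Up.inv h1
    rw [inv_coe] at h3
    rw [inv_coe, transpose_nonsing_inv]
    exact h3
  constructor
  · intro i j hij; exact h2 j i hij
  · intro i
    have h1' : Up (g.1)ᵀ := h1
    have h4 := h1'.mul_diag h2 i
    rw [← transpose_mul, transpose_apply, transpose_apply, transpose_apply, h.2, one_mul] at h4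
    have h5 : (g⁻¹).1 * g.1 = 1 := by
      have := inv_mul_cancel g
      exact congrArg Subtype.val this
    rw [h5, one_apply_eq] at h4
    exact h4.symm

theorem lo_LoU {n : ℕ} (v : Pos n → ℝ) : LoU (lo v).1 :=
  ⟨fun i j hij => lo_Up v j i hij, lo_diag v⟩

/-- the heart: `S` upper triangular with diagonal `exp (wt i * c)`, `T` lower unipotent,
`S T` orthogonal implies `S = T = 1` -/
theorem heart {S T T' : Matrix (Fin (m + 3)) (Fin (m + 3)) ℝ} {c : ℝ} (hS : Up S)
    (hSd : ∀ i, S i i = Real.exp (wt i * c)) (hT : LoU T) (hT' : LoU T') (hTT' : T * T' = 1)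
    (hK : (S * T) * (S * T)ᵀ = 1) (hK' : (S * T)ᵀ * (S * T) = 1) : S = 1 ∧ T = 1 := by
  set K := S * T with hKdef
  -- last column
  have hcol : ∀ j, ∑ i, K i j ^ 2 = 1 := by
    intro j
    have := congrFun (congrFun hK' j) j
    rw [Matrix.mul_apply, one_apply_eq] at this
    simpa [sq, transpose_apply] using this
  have hlast : ∀ i, K i (Fin.last (m + 2)) = S i (Fin.last (m + 2)) := by
    intro i
    rw [hKdef, Matrix.mul_apply]
    rw [Finset.sum_eq_single (Fin.last (m + 2))]
    · rw [hT.2, mul_one]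
    · intro l _ hl
      rw [hT.1 l _ (lt_of_le_of_ne (Fin.le_last l) hl), mul_zero]
    · intro h; exact absurd (Finset.mem_univ _) h
  have hc1 : Real.exp c ^ 2 ≤ 1 := by
    have h1 := hcol (Fin.last (m + 2))
    have h2 : K (Fin.last (m + 2)) (Fin.last (m + 2)) ^ 2 ≤ ∑ i, K i (Fin.last (m + 2)) ^ 2 :=
      Finset.single_le_sum (f := fun i => K i (Fin.last (m + 2)) ^ 2)
        (fun i _ => sq_nonneg _) (Finset.mem_univ _)
    rw [h1, hlast, hSd, wt_last, one_mul] at h2
    exact h2
  -- first row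
  have h00 : K 0 0 * S 0 0 = 1 := by
    have h1 : Kᵀ * S = T' := by
      have : Kᵀ * S * T * T' = T' := by
        rw [mul_assoc Kᵀ S T, ← hKdef, hK', one_mul]
      rw [mul_assoc (Kᵀ * S), hTT', mul_one] at this
      exact this
    have h2 := congrFun (congrFun h1 0) 0
    rw [Matrix.mul_apply, hT'.2, Finset.sum_eq_single (0 : Fin (m + 3))] at h2
    · exact h2
    · intro l _ hl
      rw [hS l 0 (Fin.pos_of_ne_zero hl), mul_zero]
    · intro h; exact absurd (Finset.mem_univ _) h
  have hc2 : 1 ≤ Real.exp c := by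
    have h1 := hcol 0
    have h2 : K 0 0 ^ 2 ≤ ∑ i, K i 0 ^ 2 :=
      Finset.single_le_sum (f := fun i => K i 0 ^ 2) (fun i _ => sq_nonneg _) (Finset.mem_univ _)
    rw [h1] at h2
    rw [hSd, wt_zero, one_mul] at h00
    have hpos := Real.exp_pos c
    by_contra hlt
    push Not at hlt
    have h3 : K 0 0 ≤ 1 := by nlinarith
    nlinarith
  have hc : c = 0 := by
    have hpos := Real.exp_pos c
    have h1 : Real.exp c ≤ 1 := by nlinarith
    have h2 : Real.exp c = 1 := le_antisymm h1 hc2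
    exact Real.exp_eq_one_iff c |>.1 h2
  have hSd' : ∀ i, S i i = 1 := fun i => by rw [hSd, hc, mul_zero, Real.exp_zero]
  -- downward induction
  have hmain : ∀ r : ℕ, ∀ j : Fin (m + 3), m + 3 ≤ j.1 + r →
      (∀ i, S i j = (1 : Matrix (Fin (m + 3)) (Fin (m + 3)) ℝ) i j) ∧
      (∀ l, T j l = (1 : Matrix (Fin (m + 3)) (Fin (m + 3)) ℝ) j l) := by
    intro r
    induction r with
    | zero => intro j hj; have := j.2; omega
    | succ r ih =>
      intro j hj
      have ih' : ∀ j' : Fin (m + 3), j < j' →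
          (∀ i, S i j' = (1 : Matrix (Fin (m + 3)) (Fin (m + 3)) ℝ) i j') ∧
          (∀ l, T j' l = (1 : Matrix (Fin (m + 3)) (Fin (m + 3)) ℝ) j' l) := by
        intro j' hj'
        exact ih j' (by have : j.1 < j'.1 := hj'; omega)
      -- column j of K is column j of S
      have hKS : ∀ i, K i j = S i j := by
        intro i
        rw [hKdef, Matrix.mul_apply, Finset.sum_eq_single j]
        · rw [hT.2, mul_one]
        · intro l _ hl
          rcases lt_or_gt_of_ne hl with h | h
          · rw [hT.1 l j h, mul_zero]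
          · rw [(ih' l h).2 j, one_apply_ne hl, mul_zero]
        · intro h; exact absurd (Finset.mem_univ _) h
      have hSj : ∀ i, S i j = (1 : Matrix (Fin (m + 3)) (Fin (m + 3)) ℝ) i j := by
        intro i
        by_cases hij : i = j
        · subst hij; rw [hSd', one_apply_eq]
        · rw [one_apply_ne hij]
          have h1 := hcol j
          have h2 : K i j ^ 2 + K j j ^ 2 ≤ ∑ l, K l j ^ 2 := by
            rw [← Finset.sum_pair (f := fun l => K l j ^ 2) hij]
            exact Finset.sum_le_sum_of_subset_of_nonneg (Finset.subset_univ _)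
              (fun l _ _ => sq_nonneg _)
          rw [h1, hKS j, hSd', hKS i] at h2
          nlinarith [sq_nonneg (S i j)]
      refine ⟨hSj, ?_⟩
      -- row j of K is e_j
      have hKj : ∀ l, K j l = (1 : Matrix (Fin (m + 3)) (Fin (m + 3)) ℝ) j l := by
        intro l
        have h1 := congrFun (congrFun hK' j) l
        rw [Matrix.mul_apply, Finset.sum_eq_single j] at h1
        · rw [transpose_apply, hKS j, hSd', one_mul] at h1
          exact h1
        · intro i _ hi
          rw [transpose_apply, hKS i, hSj i, one_apply_ne hi, zero_mul]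
        · intro h; exact absurd (Finset.mem_univ _) h
      intro l
      rw [← hKj l, hKdef, Matrix.mul_apply, Finset.sum_eq_single j]
      · rw [hSd', one_mul]
      · intro i _ hi
        rcases lt_or_gt_of_ne hi with h | h
        · rw [hS j i h, zero_mul]
        · rw [(ih' i h).1 j, one_apply_ne hi.symm, zero_mul]
      · intro h; exact absurd (Finset.mem_univ _) h
  constructor
  · ext i j
    exact (hmain (m + 3) j (by omega)).1 i
  · ext i j
    exact (hmain (m + 3) i (by omega)).2 j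

theorem orth_mul_inv {k : ℕ} {a b : SL k} (ha : a.1 * (a.1)ᵀ = 1) (hb : b.1 * (b.1)ᵀ = 1) :
    (a * b⁻¹).1 * ((a * b⁻¹).1)ᵀ = 1 := by
  have h1 : (b⁻¹).1 = (b.1)ᵀ := by
    rw [inv_coe]; exact inv_eq_right_inv hb
  have h2 : (b.1)ᵀ * b.1 = 1 := mul_eq_one_comm.1 hb
  rw [Matrix.SpecialLinearGroup.coe_mul, h1, transpose_mul, transpose_transpose]
  calc a.1 * (b.1)ᵀ * (b.1 * (a.1)ᵀ) = a.1 * ((b.1)ᵀ * b.1) * (a.1)ᵀ := by
        simp only [mul_assoc]
    _ = 1 := by rw [h2, mul_one, ha]

theorem tpp : TPP (Set.range (up : (Option (Pos (m + 3)) → ℝ) → SL (m + 3)))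
    (Set.range (lo : (Pos (m + 3) → ℝ) → SL (m + 3)))
    (Set.range (rot : (Pos (m + 3) → ℝ) → SL (m + 3))) := by
  rintro s ⟨_, ⟨v, rfl⟩, _, ⟨v', rfl⟩, rfl⟩ t ⟨_, ⟨w, rfl⟩, _, ⟨w', rfl⟩, rfl⟩ u
    ⟨_, ⟨z, rfl⟩, _, ⟨z', rfl⟩, rfl⟩ h
  set s := up v * (up v')⁻¹ with hs
  set t := lo w * (lo w')⁻¹ with ht
  set u := rot z * (rot z')⁻¹ with hu
  have hsU : Up s.1 := (up_Up v).mul (Up.inv (up_Up v'))
  have hsd : ∀ i, s.1 i i = Real.exp (wt i * (v none - v' none)) := by
    intro i
    have h1 : s * up v' = up v := by rw [hs]; group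
    have h2 := hsU.mul_diag (up_Up v') i
    have h3 : s.1 * (up v').1 = (up v).1 := congrArg Subtype.val h1
    rw [h3, up_diag, up_diag] at h2
    have h4 : Real.exp (wt i * (v none - v' none)) * Real.exp (wt i * v' none) =
        Real.exp (wt i * v none) := by rw [← Real.exp_add]; ring_nf
    rw [← h4] at h2
    exact (mul_right_cancel₀ (Real.exp_pos _).ne' h2).symm
  have htU : LoU t.1 := (lo_LoU w).mul (LoU.inv (lo_LoU w'))
  have htU' : LoU (t⁻¹).1 := LoU.inv htU
  have hTT : t.1 * (t⁻¹).1 = 1 := congrArg Subtype.val (mul_inv_cancel t)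
  have huO : u.1 * (u.1)ᵀ = 1 :=
    orth_mul_inv (cay_orth (skew_transpose z)) (cay_orth (skew_transpose z'))
  have hst : s * t = u⁻¹ := eq_inv_of_mul_eq_one_left h
  have hK : (s.1 * t.1) * (s.1 * t.1)ᵀ = 1 := by
    have h1 : s.1 * t.1 = (u.1)ᵀ := by
      have : s.1 * t.1 = (u⁻¹).1 := congrArg Subtype.val hst
      rw [this, inv_coe]; exact inv_eq_right_inv huO
    rw [h1, transpose_transpose]
    exact mul_eq_one_comm.1 huO
  obtain ⟨h1, h2⟩ := heart hsU hsd htU htU' hTT hK (mul_eq_one_comm.1 hK)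
  have hs1 : s = 1 := Subtype.ext h1
  have ht1 : t = 1 := Subtype.ext h2
  refine ⟨hs1, ht1, ?_⟩
  rw [hs1, ht1, one_mul, one_mul] at h
  exact h

end Pool.Agent.V11250.LieExp
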